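import Pool.Agent.H7.HD.All8
import Pool.Agent.H7.HD.Targets9

/-! # MP_e37c09_lc, modules BA, PK, EK, FN, EF -/

open Ordinal Cardinal Order Set
open scoped ZFSet

universe u

namespace Pool.Agent.H66.HD9.BA

open _root_.HD

theorem X : T_B1.{u} := by
  intro D hD hW
  refine ⟨hD.1, hD.2.2.1, hD.1, le_rfl, ?_, ?_, hW⟩
  · intro M hM hMD κ hκ
    exact hD.2.2.2 M hM hMD κ hκ.le
  · intro en hen M hM hMD κ hκ X hX hP
    exact All.hb2 en hen D M κ hD.1 hD.2.1 hD.2.2.1 hM hMD hκ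
      (All.ha _ _ _ (hD.2.2.2 M hM hMD κ hκ.le)) X hX hP

end Pool.Agent.H66.HD9.BA

namespace Pool.Agent.H66.HD9.PK

open _root_.HD

theorem X : T_PK.{u} := by
  intro D G K hB hK hG τ hτ
  obtain ⟨en, hen⟩ := All.en
  have hKℵ : ℵ₀ < K := hB.dunc.trans_le (hB.dg.trans hG.le)
  have hKcof : K.ord.cof = K := hK.cof_ord
  have hDSu : DS (univ : Set Ordinal.{u}) := (DO.cst True).congr fun w => by simp
  obtain ⟨c, -, hc⟩ := hB.atm en hen ℵ₀ isRegular_aleph0 hB.dunc K.ord (by rw [hKcof]; exact hG)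
    univ hDSu (All.vc ℵ₀ K.ord isRegular_aleph0 (by rw [hKcof]; exact hKℵ))
  exact All.kc en hen _ K c hK hKℵ hc τ hτ

end Pool.Agent.H66.HD9.PK

namespace Pool.Agent.H66.HD9.EK

open _root_.HD

theorem X : T_EK.{u} := by
  classical
  intro D G K hB hK hG
  have hKℵ : ℵ₀ < K := hB.dunc.trans_le (hB.dg.trans hG.le)
  obtain ⟨β, hβ, F, y, hF, hfn, hall⟩ := PK.X D G (succ K) hB (Cardinal.isRegular_succ hKℵ.le)
    (hG.trans (lt_succ K)) K.ord (Cardinal.ord_lt_ord.2 (lt_succ K))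
  have hc : #(Iio β) ≤ Cardinal.lift.{u + 1} K.ord.card := by
    rw [Cardinal.mk_Iio_ordinal, Cardinal.card_ord, Cardinal.lift_le]
    exact lt_succ_iff.1 (Cardinal.lt_ord.1 hβ)
  obtain ⟨q, hq⟩ := cov_iff.2 hc
  let e : Ordinal.{u} → ZFSet.{u} := fun ζ =>
    if h : ∃ x, HOD x ∧ x ⊆ K.ord.toZFSet ∧ ZFSet.pair (q ζ).toZFSet x ∈ F then h.choose else ∅
  refine ⟨e, ?_, ?_⟩
  · intro ζ
    by_cases h : ∃ x, HOD x ∧ x ⊆ K.ord.toZFSet ∧ ZFSet.pair (q ζ).toZFSet x ∈ F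
    · have h1 : e ζ = h.choose := dif_pos h
      rw [h1]
      exact ⟨h.choose_spec.1, h.choose_spec.2.1⟩
    · have h1 : e ζ = ∅ := dif_neg h
      rw [h1]
      refine ⟨?_, ZFSet.empty_subset _⟩
      have := HOD.ordinal.{u} 0
      rwa [toZFSet_zero] at this
  · intro x hx hxK
    obtain ⟨b, hb, hbF⟩ := hall x hx hxK
    obtain ⟨ζ, hζ, rfl⟩ := hq b hb
    refine ⟨ζ, hζ, ?_⟩
    have h : ∃ x, HOD x ∧ x ⊆ K.ord.toZFSet ∧ ZFSet.pair (q ζ).toZFSet x ∈ F := ⟨x, hx, hxK, hbF⟩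
    have h1 : e ζ = h.choose := dif_pos h
    rw [h1]
    exact (hfn.2 _ (toZFSet_mem_toZFSet_iff.2 hb)).unique hbF h.choose_spec.2.2

end Pool.Agent.H66.HD9.EK

namespace Pool.Agent.H66.HD9.FN

open _root_.HD

lemma sInf_iff (S : Set Ordinal.{u}) (b : Ordinal.{u}) :
    b = sInf S ↔ (b ∈ S ∧ ∀ c < b, ¬ c ∈ S) ∨ ((∀ c, ¬ c ∈ S) ∧ b = 0) := by
  constructor
  · rintro rfl
    rcases S.eq_empty_or_nonempty with rfl | h
    · exact Or.inr ⟨fun c hc => hc, Ordinal.sInf_empty⟩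
    · exact Or.inl ⟨csInf_mem h, fun c hc hcS => notMem_of_lt_csInf hc (OrderBot.bddBelow S) hcS⟩
  · rintro (⟨h1, h2⟩ | ⟨h1, rfl⟩)
    · apply le_antisymm
      · by_contra h3
        push Not at h3
        exact h2 _ h3 (csInf_mem ⟨b, h1⟩)
      · exact csInf_le (OrderBot.bddBelow S) h1
    · have : S = ∅ := Set.eq_empty_iff_forall_notMem.2 h1
      rw [this, Ordinal.sInf_empty]

/-- least elements -/
lemma do_sInf {R : Ordinal.{u} → (ℕ → Ordinal.{u}) → Prop}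
    (h : DO fun w => R (w 0) (fun n => w (n + 1))) (i : ℕ) :
    DO fun w => w i = sInf {b | R b w} := by
  have h0 : DO fun w => R (w i) w := by
    refine (h.ren (fun n => if n = 0 then i else n - 1)).congr fun w => ?_
    simp
  have h1 : DO fun w => ∀ c < w i, ¬ R c w := DO.allLt (R := fun c w => ¬ R c w) i h.not
  have h2 : DO fun w => ∀ c, ¬ R c w := DO.all (R := fun c w => ¬ R c w) h.not
  refine ((h0.and h1).or (h2.and (DO.eqc i 0))).congr fun w => ?_
  exact sInf_iff _ _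

lemma do_af {en : Ordinal.{u} → ZFSet.{u}} (hen : EN en) :
    DO fun w => w 2 = af en (w 1) (w 0) := by
  have h := (All.ea en hen).2.1
  exact do_sInf (R := fun b w => b ∈ E2 en (w 1) (w 0)) h 2

lemma code {en : Ordinal.{u} → ZFSet.{u}} (hen : EN en) (g : Ordinal.{u} → Ordinal.{u})
    (hg : DR fun a b => b = g a) (β : Ordinal.{u}) : ∃ c, ∀ a < β, af en c a = g a := by
  have hb : BddAbove (Set.range fun b : Iio β => succ (g b.1)) := Ordinal.bddAbove_of_small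
  obtain ⟨γ, hγ⟩ := hb
  obtain ⟨c, hc⟩ := (All.ea en hen).2.2.2 (fun a b => b = g a) hg (max β γ)
  refine ⟨c, fun a ha => ?_⟩
  have h1 : g a < γ := (lt_succ (g a)).trans_le (hγ ⟨⟨a, ha⟩, rfl⟩)
  have h2 : E2 en c a = {g a} := by
    ext b
    rw [hc, mem_singleton_iff]
    constructor
    · rintro ⟨-, -, h⟩; exact h
    · rintro rfl
      exact ⟨ha.trans_le (le_max_left _ _), h1.trans_le (le_max_right _ _), rfl⟩
  unfold af
  rw [h2, csInf_singleton]

theorem X : T_FD.{u} := fun _ hen => ⟨do_af hen, code hen⟩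

end Pool.Agent.H66.HD9.FN

namespace Pool.Agent.H66.HD9.EF

open _root_.HD

theorem X (hEK : T_EK.{u}) (hFN : T_FD.{u}) : T_EF.{u} := by
  classical
  intro en D G K c f hen hB hK hG hf
  have hKℵ : ℵ₀ < K := hB.dunc.trans_le (hB.dg.trans hG.le)
  obtain ⟨e0, he1, he2⟩ := hEK D G K hB hK hG
  obtain ⟨t, ht1, ht2, ht3⟩ := All.pr.{u}
  obtain ⟨haf, hcode⟩ := hFN en hen
  -- the functions read off from `e0 z`
  have hdr : ∀ z, DR fun a b => b = sInf {b | (t a b).toZFSet ∈ e0 z} := by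
    intro z
    have h1 : DS {x | x.toZFSet ∈ e0 z} := (he1 z).1.od.ds
    refine FN.do_sInf (R := fun b w => (t (w 0) b).toZFSet ∈ e0 z) ?_ 1
    refine (DO.ex (R := fun x w => x = t (w 1) (w 0) ∧ x ∈ {x | x.toZFSet ∈ e0 z})
      (DO.and ?_ ?_)).congr fun w => ?_
    · exact DO.s3 (X := fun a b c => c = t a b) ht1 2 1 0
    · exact h1.s1 0
    · constructor
      · intro h; exact ⟨_, rfl, h⟩
      · rintro ⟨x, rfl, h⟩; exact h
  choose e he using fun z => hcode _ (hdr z) K.ord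
  refine ⟨e, fun g hg => ?_⟩
  -- the graph of `g`
  have hds : DS {x | ∃ a < K.ord, x = t a (af en g a) ∧ af en g a < af en f a} := by
    have h1 : DO fun w => w 2 = af en g (w 0) := by
      refine (DO.sub (R := fun p w => w 2 = af en p (w 0)) g ?_)
      refine (haf.ren (fun n => if n = 0 then 1 else if n = 1 then 0 else 3)).congr fun w => ?_
      simp
    have h2 : DO fun w => w 2 = af en f (w 0) := by
      refine (DO.sub (R := fun p w => w 2 = af en p (w 0)) f ?_)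
      refine (haf.ren (fun n => if n = 0 then 1 else if n = 1 then 0 else 3)).congr fun w => ?_
      simp
    refine (DO.exLtc (R := fun a w => ∃ p, p = af en g a ∧ ∃ q, q = af en f a ∧ w 0 = t a p ∧ p < q)
      K.ord ?_).congr fun w => ?_
    · refine DO.ex (R := fun p w => p = af en g (w 0) ∧ ∃ q, q = af en f (w 0) ∧
        w 1 = t (w 0) p ∧ p < q) (DO.and ?_ ?_)
      · refine (h1.ren (fun n => if n = 0 then 1 else 0)).congr fun w => ?_
        simp
      · refine DO.ex (R := fun q w => q = af en f (w 1) ∧ w 2 = t (w 1) (w 0) ∧ w 0 < q)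
          (DO.and ?_ (DO.and ?_ ?_))
        · refine (h2.ren (fun n => if n = 0 then 2 else 0)).congr fun w => ?_
          simp
        · exact DO.s3 (X := fun a b c => c = t a b) ht1 2 1 3
        · exact DO.lt 1 0
    · constructor
      · rintro ⟨a, ha, h3, h4⟩
        exact ⟨a, ha, _, rfl, _, rfl, h3, h4⟩
      · rintro ⟨a, ha, _, rfl, _, rfl, h3, h4⟩
        exact ⟨a, ha, h3, h4⟩
  obtain ⟨z, hz, hzx⟩ := he2 _ (hod_os hds K.ord) (by
    intro x hx
    obtain ⟨a, ha, -, rfl⟩ := mem_os.1 hx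
    exact toZFSet_mem_toZFSet_iff.2 ha)
  refine ⟨z, hz, fun hp => hg (hp.mono fun a ha haS _ => ⟨haS.1, ?_⟩)⟩
  by_contra hlt
  push Not at hlt
  apply haS.2
  rw [he z a ha]
  have h5 : {b | (t a b).toZFSet ∈ e0 z} = {af en g a} := by
    ext b
    rw [mem_singleton_iff]
    show (t a b).toZFSet ∈ e0 z ↔ _
    rw [← hzx, ord_mem_os]
    constructor
    · rintro ⟨-, a', ha', h6, -⟩
      obtain ⟨rfl, rfl⟩ := ht2 _ _ _ _ h6
      rfl
    · rintro rfl
      exact ⟨ht3 K hKℵ.le a ha _ (hlt.trans (hf a ha)), a, ha, rfl, hlt⟩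
  rw [h5, csInf_singleton]

end Pool.Agent.H66.HD9.EF
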