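import Pool.Agent.H7.HD.All8
import Pool.Agent.H7.HD.Targets9

/-! # MP_e37c09_lc, modules WF, CE, CU: classes of functions modulo null sets -/

open Ordinal Cardinal Order Set
open scoped ZFSet

universe u

namespace Pool.Agent.H66.HD9.WF

open _root_.HD

theorem X : T_WF.{u} := by
  intro μ ρ S hρ hS N f hN
  by_contra hcon
  push Not at hcon
  obtain ⟨e0, he0⟩ := hN
  choose! g hg1 hg2 using hcon
  let s : ℕ → Ordinal.{u} := fun n => g^[n] e0
  have hs0 : ∀ n, s (n + 1) = g (s n) := fun n => Function.iterate_succ_apply' g n e0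
  have hsN : ∀ n, s n ∈ N := by
    intro n
    induction n with
    | zero => exact he0
    | succ n ih => rw [hs0]; exact hg1 _ ih
  have hnull : ∀ n : ℕ, ¬ Pos μ ρ {a | a ∈ S ∧ f (s n) a ≤ f (s (n + 1)) a} := by
    intro n
    have := hg2 _ (hsN n)
    rw [← hs0] at this
    exact this
  have hU : ¬ Pos μ ρ {b | ∃ i < (ω : Ordinal.{u}),
      b ∈ {a | ∃ n : ℕ, i = n ∧ a ∈ S ∧ f (s n) a ≤ f (s (n + 1)) a}} := by
    refine All.va μ ρ hρ ω (by rw [card_omega0]; exact hρ) _ ?_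
    intro i hi
    obtain ⟨n, rfl⟩ := lt_omega0.1 hi
    intro hp
    refine hnull n (hp.mono ?_)
    rintro b _ ⟨m, hm, h1, h2⟩ _
    have : n = m := by exact_mod_cast hm
    subst this
    exact ⟨h1, h2⟩
  have h2 := pos_diff All.va hρ hS hU
  have hlim : IsSuccLimit ρ := (Ordinal.one_lt_cof_iff).1 (Cardinal.one_lt_aleph0.trans hρ)
  obtain ⟨a, ha, -, ⟨haS, hna⟩, -⟩ := h2 univ ⟨fun a ha => ⟨succ a, hlim.succ_lt ha, lt_succ a,
    mem_univ _⟩, fun _ _ _ _ => mem_univ _⟩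
  have h3 : ∀ n : ℕ, f (s (n + 1)) a < f (s n) a := by
    intro n
    by_contra h4
    push Not at h4
    exact hna ⟨n, natCast_lt_omega0 n, n, rfl, haS, h4⟩
  exact not_strictAnti_of_wellFoundedLT (fun n => f (s n) a) (strictAnti_nat_of_succ_lt h3)

end Pool.Agent.H66.HD9.WF

namespace Pool.Agent.H66.HD9.CE

open _root_.HD

theorem X (hWF : T_WF.{u}) : T_CE.{u} := by
  intro en μ ρ S h _ hρ hS hLU
  obtain ⟨f, hf⟩ := hLU.up
  obtain ⟨g, hg, hmin⟩ := hWF μ ρ S hρ hS {e | ¬ Lw μ ρ S (af en e) h} (af en) ⟨f, by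
    intro hl
    exact hl (hS.mono fun b hb hbS _ => ⟨hbS, hf b hb⟩)⟩
  refine ⟨g, hLU, fun e => ⟨fun he => ?_, fun he => ?_⟩⟩
  · intro hp
    have h1 : ¬ Pos μ ρ {a | a ∈ S ∧ af en e a < af en g a} := fun h2 => hLU.cmp e g ⟨h2, hp⟩
    apply hg
    intro h3
    refine null_union All.va hρ h1 he (h3.mono fun b _ hb _ => ?_)
    rcases lt_or_ge (af en e b) (af en g b) with h4 | h4
    · exact Or.inl ⟨hb.1, h4⟩
    · exact Or.inr ⟨hb.1, hb.2.trans h4⟩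
  · by_contra h1
    exact hmin e h1 he

end Pool.Agent.H66.HD9.CE

namespace Pool.Agent.H66.HD9.CU

open _root_.HD

lemma one {en : Ordinal.{u} → ZFSet.{u}} {μ ρ : Ordinal.{u}} {S : Set Ordinal.{u}}
    {g : Ordinal.{u}} {h h' : Ordinal.{u} → Ordinal.{u}} (h1 : Cl en μ ρ S g h)
    (h2 : Cl en μ ρ S g h') : ¬ Pos μ ρ {a | a ∈ S ∧ h a < h' a} := by
  intro hp
  obtain ⟨e, he1, he2⟩ := h2.1.lub _ h hp (fun a ha _ => ha)
  have h3 : Lw μ ρ S (af en e) h := (h1.2 e).2 ((h2.2 e).1 he1)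
  exact h3 (he2.mono fun b _ hb _ => ⟨hb.1.1, hb.2⟩)

theorem X : T_CU.{u} := by
  intro en μ ρ S g h h' _ hρ h1 h2 hp
  refine null_union All.va hρ (one h1 h2) (one h2 h1) (hp.mono fun b _ hb _ => ?_)
  rcases lt_or_gt_of_ne hb.2 with h3 | h3
  · exact Or.inl ⟨hb.1, h3⟩
  · exact Or.inr ⟨hb.1, h3⟩

end Pool.Agent.H66.HD9.CU
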